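import Pool.Agent.H3RD.W830.RD.Stm

/-!
# Project RD (MP_54f573_pr): assembly of the slots
-/

set_option autoImplicit false

namespace Pool.Agent.W589.RD.ASM

open Finset Filter Topology Pool.Agent.W830.RD
open scoped Classical

theorem chn_singleton {α : Type} [PartialOrder α] (x : α) : Chn ({x} : Finset α) := by
  intro a ha b hb
  rw [mem_singleton] at ha hb
  subst ha; subst hb
  exact Or.inl le_rfl

theorem chn_empty {α : Type} [PartialOrder α] : Chn (∅ : Finset α) := by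
  intro a ha
  exact absurd ha (notMem_empty a)

theorem main : S_ASM := by
  intro α _ S T P Q J X Tp φ hP hQ hJQ hXS hTT hXT hφX hφi hφc hcard hcard2
  have himg : (J.image φ).card = J.card :=
    card_image_of_injOn fun C hC C' hC' h => hφi C hC C' hC' h
  have hsub : J.image φ ⊆ X := by
    intro x hx
    obtain ⟨C, hC, rfl⟩ := mem_image.1 hx
    exact hφX C hC
  have hc : (X \ J.image φ).card = Tp.card := by
    rw [card_sdiff_of_subset hsub, himg]; omega
  have e : (X \ J.image φ : Finset α) ≃ (Tp : Finset α) := Finset.equivOfCardEq hc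
  let M1 : Multiset (Finset α × Finset α) := J.val.map fun C => ({φ C}, C)
  let M2 : Multiset (Finset α × Finset α) :=
    (X \ J.image φ).attach.val.map fun x => ({x.1}, {(e x).1})
  let M3 : Multiset (Finset α × Finset α) := (S \ X).val.map fun x => ({x}, ∅)
  let M4 : Multiset (Finset α × Finset α) := (T \ Tp).val.map fun y => (∅, {y})
  let M5 : Multiset (Finset α × Finset α) := P.val.map fun C => (C, ∅)
  let M6 : Multiset (Finset α × Finset α) := (Q \ J).val.map fun C => (∅, C)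
  have m1 : ∀ p, p ∈ M1 ↔ ∃ C ∈ J, ({φ C}, C) = p := fun p => by simp [M1]
  have m2 : ∀ p, p ∈ M2 ↔ ∃ x : (X \ J.image φ : Finset α), ({x.1}, {(e x).1}) = p := fun p => by
    simp only [M2, Multiset.mem_map, mem_val, mem_attach, true_and]
  have m3 : ∀ p, p ∈ M3 ↔ ∃ x ∈ S \ X, ({x}, ∅) = p := fun p => by
    simp only [M3, Multiset.mem_map, mem_val]
  have m4 : ∀ p, p ∈ M4 ↔ ∃ y ∈ T \ Tp, (∅, {y}) = p := fun p => by
    simp only [M4, Multiset.mem_map, mem_val]
  have m5 : ∀ p, p ∈ M5 ↔ ∃ C ∈ P, (C, ∅) = p := fun p => by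
    simp only [M5, Multiset.mem_map, mem_val]
  have m6 : ∀ p, p ∈ M6 ↔ ∃ C ∈ Q \ J, (∅, C) = p := fun p => by
    simp only [M6, Multiset.mem_map, mem_val]
  have c1 : M1.card = J.card := by simp [M1]
  have c2 : M2.card = Tp.card := by
    simp only [M2, Multiset.card_map, card_val, card_attach]; exact hc
  have c3 : M3.card = (S \ X).card := by simp only [M3, Multiset.card_map, card_val]
  have c4 : M4.card = (T \ Tp).card := by simp only [M4, Multiset.card_map, card_val]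
  have c5 : M5.card = P.card := by simp only [M5, Multiset.card_map, card_val]
  have c6 : M6.card = (Q \ J).card := by simp only [M6, Multiset.card_map, card_val]
  have hSD : S ⊆ DD S P := subset_union_left
  have hTD : T ⊆ DD T Q := subset_union_left
  have hPD : ∀ C ∈ P, C ⊆ DD S P := fun C hC x hx =>
    mem_union_right _ (mem_biUnion.2 ⟨C, hC, hx⟩)
  have hQD : ∀ C ∈ Q, C ⊆ DD T Q := fun C hC x hx =>
    mem_union_right _ (mem_biUnion.2 ⟨C, hC, hx⟩)
  have key : ∀ p, p ∈ M1 + M2 + M3 + M4 + M5 + M6 ↔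
      (∃ C ∈ J, ({φ C}, C) = p) ∨
      (∃ x : (X \ J.image φ : Finset α), ({x.1}, {(e x).1}) = p) ∨
      (∃ x ∈ S \ X, ({x}, ∅) = p) ∨ (∃ y ∈ T \ Tp, (∅, {y}) = p) ∨ (∃ C ∈ P, (C, ∅) = p) ∨
      ∃ C ∈ Q \ J, (∅, C) = p := by
    intro p
    simp only [Multiset.mem_add, m1, m2, m3, m4, m5, m6, or_assoc]
  refine ⟨M1 + M2 + M3 + M4 + M5 + M6, X, Tp ∪ J.biUnion (fun C => C.filter (fun y => φ C ≤ y)),
    ?_, ?_, ?_, ?_, ?_, ?_, ?_⟩
  · simp only [Multiset.card_add, c1, c2, c3, c4, c5, c6]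
    omega
  · intro p hp
    rcases (key p).1 hp with ⟨C, hC, rfl⟩ | ⟨x, rfl⟩ | ⟨x, hx, rfl⟩ | ⟨y, hy, rfl⟩ |
      ⟨C, hC, rfl⟩ | ⟨C, hC, rfl⟩
    · exact ⟨singleton_subset_iff.2 (hSD (hXS (hφX C hC))), hQD C (hJQ hC), chn_singleton _,
        hQ C (hJQ hC)⟩
    · exact ⟨singleton_subset_iff.2 (hSD (hXS (mem_sdiff.1 x.2).1)),
        singleton_subset_iff.2 (hTD (hTT (e x).2)), chn_singleton _, chn_singleton _⟩
    · exact ⟨singleton_subset_iff.2 (hSD (mem_sdiff.1 hx).1), empty_subset _, chn_singleton _,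
        chn_empty⟩
    · exact ⟨empty_subset _, singleton_subset_iff.2 (hTD (mem_sdiff.1 hy).1), chn_empty,
        chn_singleton _⟩
    · exact ⟨hPD C hC, empty_subset _, hP C hC, chn_empty⟩
    · exact ⟨empty_subset _, hQD C (mem_sdiff.1 hC).1, chn_empty, hQ C (mem_sdiff.1 hC).1⟩
  · intro x hx
    rcases mem_union.1 hx with hx | hx
    · by_cases hxX : x ∈ X
      · by_cases hxJ : x ∈ J.image φ
        · obtain ⟨C, hC, rfl⟩ := mem_image.1 hxJ
          exact ⟨_, (key _).2 (Or.inl ⟨C, hC, rfl⟩), mem_singleton_self _⟩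
        · exact ⟨_, (key _).2 (Or.inr (Or.inl ⟨⟨x, mem_sdiff.2 ⟨hxX, hxJ⟩⟩, rfl⟩)),
            mem_singleton_self _⟩
      · exact ⟨_, (key _).2 (Or.inr (Or.inr (Or.inl ⟨x, mem_sdiff.2 ⟨hx, hxX⟩, rfl⟩))),
            mem_singleton_self _⟩
    · obtain ⟨C, hC, hxC⟩ := mem_biUnion.1 hx
      exact ⟨_, (key _).2 (Or.inr (Or.inr (Or.inr (Or.inr (Or.inl ⟨C, hC, rfl⟩))))), hxC⟩
  · intro y hy
    rcases mem_union.1 hy with hy | hy
    · by_cases hyT : y ∈ Tp
      · refine ⟨_, (key _).2 (Or.inr (Or.inl ⟨e.symm ⟨y, hyT⟩, rfl⟩)), ?_⟩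
        simp
      · exact ⟨_, (key _).2 (Or.inr (Or.inr (Or.inr (Or.inl ⟨y, mem_sdiff.2 ⟨hy, hyT⟩, rfl⟩)))),
            mem_singleton_self _⟩
    · obtain ⟨C, hC, hyC⟩ := mem_biUnion.1 hy
      by_cases hCJ : C ∈ J
      · exact ⟨_, (key _).2 (Or.inl ⟨C, hCJ, rfl⟩), hyC⟩
      · exact ⟨_, (key _).2 (Or.inr (Or.inr (Or.inr (Or.inr (Or.inr
          ⟨C, mem_sdiff.2 ⟨hC, hCJ⟩, rfl⟩))))), hyC⟩
  · intro x hx y hy
    rcases mem_union.1 hy with hy | hy
    · exact hXT x hx y hy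
    · obtain ⟨C, hC, hyC⟩ := mem_biUnion.1 hy
      obtain ⟨h1, h2⟩ := mem_filter.1 hyC
      exact hφc C hC x hx y h1 h2
  · intro p hp d hd u hu hdu
    rcases (key p).1 hp with ⟨C, hC, rfl⟩ | ⟨x, rfl⟩ | ⟨x, hx, rfl⟩ | ⟨y, hy, rfl⟩ |
      ⟨C, hC, rfl⟩ | ⟨C, hC, rfl⟩
    · have hd' : d = φ C := mem_singleton.1 hd
      subst hd'
      exact ⟨hφX C hC, mem_union_right _ (mem_biUnion.2 ⟨C, hC, mem_filter.2 ⟨hu, hdu⟩⟩)⟩
    · have hd' : d = x.1 := mem_singleton.1 hd
      have hu' : u = (e x).1 := mem_singleton.1 hu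
      subst hd'; subst hu'
      exact ⟨(mem_sdiff.1 x.2).1, mem_union_left _ (e x).2⟩
    · exact absurd hu (notMem_empty _)
    · exact absurd hd (notMem_empty _)
    · exact absurd hu (notMem_empty _)
    · exact absurd hd (notMem_empty _)
  · have z3 : M3.countP Mixed = 0 := Multiset.countP_eq_zero.2 fun p hp => by
      obtain ⟨x, hx, rfl⟩ := (m3 p).1 hp
      rintro ⟨d, hd, u, hu, hdu⟩
      exact absurd hu (notMem_empty _)
    have z4 : M4.countP Mixed = 0 := Multiset.countP_eq_zero.2 fun p hp => by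
      obtain ⟨x, hx, rfl⟩ := (m4 p).1 hp
      rintro ⟨d, hd, u, hu, hdu⟩
      exact absurd hd (notMem_empty _)
    have z5 : M5.countP Mixed = 0 := Multiset.countP_eq_zero.2 fun p hp => by
      obtain ⟨x, hx, rfl⟩ := (m5 p).1 hp
      rintro ⟨d, hd, u, hu, hdu⟩
      exact absurd hu (notMem_empty _)
    have z6 : M6.countP Mixed = 0 := Multiset.countP_eq_zero.2 fun p hp => by
      obtain ⟨x, hx, rfl⟩ := (m6 p).1 hp
      rintro ⟨d, hd, u, hu, hdu⟩
      exact absurd hd (notMem_empty _)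
    have s3 : M3.countP Pool.Agent.W830.RD.Small = M3.card := Multiset.countP_eq_card.2 fun p hp => by
      obtain ⟨x, hx, rfl⟩ := (m3 p).1 hp
      simp [Pool.Agent.W830.RD.Small]
    have s4 : M4.countP Pool.Agent.W830.RD.Small = M4.card := Multiset.countP_eq_card.2 fun p hp => by
      obtain ⟨x, hx, rfl⟩ := (m4 p).1 hp
      simp [Pool.Agent.W830.RD.Small]
    have l1 := Multiset.countP_le_card (p := Mixed) M1
    have l2 := Multiset.countP_le_card (p := Mixed) M2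
    simp only [Multiset.countP_add, z3, z4, z5, z6, s3, s4]
    rw [c1] at l1
    rw [c2] at l2
    rw [c3, c4]
    omega

end Pool.Agent.W589.RD.ASM
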